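import Pool.Agent.Helper65.KPV.St

/-!
# Project KP (MP_26be5b_ag), chapter A, part V: module BAC
-/

set_option autoImplicit false

namespace Pool.Agent.Helper32.KPV

open Pool.Agent.Helper65.KPV Pool.Agent.Helper5.KPA Pool.Agent.Helper52.KP

private theorem pow_mem (C : Cone) (hC : Good C) {f : MvPolynomial (Fin C.m) ℂ} (hf : f ∈ C.R 1)
    (D : ℕ) : f ^ D ∈ C.R D := by
  induction D with
  | zero =>
    rw [pow_zero]
    exact hC.one
  | succ k ih =>
    rw [pow_succ]
    exact hC.mul k 1 _ _ ih hf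

private theorem exists_X (C : Cone) (hC : Good C) : ∃ i, C.X i ≠ 0 := by
  obtain ⟨z, hz⟩ : ∃ z, z ∈ C.U := by
    by_contra h
    push Not at h
    apply hC.Δ0
    apply MvPolynomial.funext
    intro z
    rw [map_zero]
    by_contra h1
    exact h z h1
  by_contra h
  push Not at h
  have h1 := hC.Xpos z hz
  unfold Cone.sz at h1
  have h2 : ∑ i, ‖ev (C.X i) z‖ = 0 := by
    refine Finset.sum_eq_zero fun i _ => ?_
    rw [h i]
    simp [ev]
  linarith

theorem hBAC (hAGR : StAGR) (hBAA : StBAA) : StBAC := by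
  intro C hC r F hF k x hx
  obtain ⟨-, -, hle, -⟩ := hAGR C hC r F hF
  obtain ⟨hsup, -, -, -, -, hCf⟩ := hBAA C hC r F hF
  have hB : ∀ k, ∀ y ∈ BB F k, y ∈ BA F := by
    intro k y hy
    have h1 : y ∈ (⨆ k, BB F k) := Submodule.mem_iSup_of_mem k hy
    rw [← hsup] at h1
    exact h1
  obtain ⟨i, hi⟩ := exists_X C hC
  set L := x.natDegree with hL
  set f := C.X i ^ (C.n * r * L) with hf
  have hfR : f ∈ C.R (C.n * r * L) := pow_mem C hC (hC.XR i) _
  have hf0 : f ≠ 0 := pow_ne_zero _ hi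
  refine ⟨Polynomial.C f, hB L _ (hCf L f hfR), ?_, hB (L + k) _ ?_⟩
  · rw [Ne, Polynomial.C_eq_zero]
    exact hf0
  · intro l
    rw [Polynomial.coeff_C_mul]
    by_cases hl : l ≤ L
    · rw [hle (L + k) l (by omega)]
      have h1 := hC.mul _ _ f (x.coeff l) hfR (hx l)
      have h2 : C.n * r * L + C.n * r * k = C.n * r * (L + k) := by ring
      rw [h2] at h1
      exact h1
    · rw [Polynomial.coeff_eq_zero_of_natDegree_lt (by omega), mul_zero]
      exact (F (L + k) l).zero_mem

end Pool.Agent.Helper32.KPV
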